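import Mathlib
import Pool.Agent.W2helper59.LN.Stm

/-!
# P10a and P10b of the Lin-Ni project (S03669)

From validated boxes to statements on the first zero.
-/

set_option autoImplicit false

namespace Pool.Agent.W2helper40.LN

open Set Pool.Agent.W2helper59.LN

/-- restriction of a solution to a smaller final time, with a change of the nonlinearity on the
values which are taken -/
lemma SolOn.mono' {F G : ℝ → ℝ → ℝ} {t0 t1 t2 : ℝ} {v q : ℝ → ℝ} (h : SolOn F t0 t2 v q)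
    (ht : t1 ≤ t2) (hFG : ∀ t ∈ Ioo t0 t1, F t (v t) = G t (v t)) : SolOn G t0 t1 v q where
  cv := h.cv.mono (Icc_subset_Icc_right ht)
  cq := h.cq.mono (Icc_subset_Icc_right ht)
  dv := fun t ht' => h.dv t ⟨ht'.1, ht'.2.trans_le ht⟩
  dq := fun t ht' => by
    rw [← hFG t ht']
    exact h.dq t ⟨ht'.1, ht'.2.trans_le ht⟩

lemma isT_unique {V : ℝ → ℝ → ℝ} {a T T' : ℝ} (h : IsT V a T) (h' : IsT V a T') : T = T' := by
  rcases lt_trichotomy T T' with hlt | heq | hlt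
  · have := h'.2.2 T ⟨h.1.le, hlt⟩
    rw [h.2.1] at this
    exact absurd this (lt_irrefl _)
  · exact heq
  · have := h.2.2 T' ⟨h'.1.le, hlt⟩
    rw [h'.2.1] at this
    exact absurd this (lt_irrefl _)

lemma isT_of_sol {V Q : ℝ → ℝ → ℝ} (hF : Fam V Q) {α T : ℝ} (hα : 0 < α) (hT : 0 < T)
    {v q : ℝ → ℝ} (h : SolOn (fun _ v => v ^ 4 + v ^ 7) 0 T v q) (h0 : v 0 = α)
    (hpos : ∀ t ∈ Ico 0 T, 0 < v t) (hz : v T = 0) : IsT V α T := by
  have h1 : SolOn (fun _ v => fp v) 0 T v q := by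
    refine SolOn.mono' h le_rfl ?_
    intro t ht
    have := hpos t ⟨ht.1.le, ht.2⟩
    simp only [fp, max_eq_left this.le]
  have h2 := hF.uniq α hα T hT v q h1 h0
  refine ⟨hT, ?_, ?_⟩
  · rw [← (h2 T ⟨hT.le, le_rfl⟩).1]; exact hz
  · intro t ht
    rw [← (h2 t ⟨ht.1, ht.2.le⟩).1]
    exact hpos t ht

/-- on `[a,b]` the function `t ω(t)` decreases with slope at most `-m` -/
lemma slope {F : ℝ → ℝ → ℝ} {t0 a b m : ℝ} {w k : ℝ → ℝ} (hs : SolOn F t0 b w k) (ha : t0 ≤ a)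
    (hneg : ∀ t ∈ Icc a b, k t ≤ -m) {s t : ℝ} (hs1 : s ∈ Icc a b) (ht1 : t ∈ Icc a b)
    (hst : s ≤ t) : t * w t - s * w s ≤ -m * (t - s) := by
  have hc : ContinuousOn (fun s : ℝ => s * w s) (Icc s t) := by
    refine (continuousOn_id.mul hs.cv).mono ?_
    exact Icc_subset_Icc (ha.trans hs1.1) ht1.2
  have hd : ∀ x ∈ Ioo s t, HasDerivAt (fun s : ℝ => s * w s) (k x) x := by
    intro x hx
    exact hs.dv x ⟨(ha.trans hs1.1).trans_lt hx.1, hx.2.trans_le ht1.2⟩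
  rcases eq_or_lt_of_le hst with h | h
  · subst h; simp
  · obtain ⟨c, hc1, hc2⟩ := exists_hasDerivAt_eq_slope _ _ h hc hd
    have h3 := hneg c ⟨hs1.1.trans hc1.1.le, hc1.2.le.trans ht1.2⟩
    rw [hc2, div_le_iff₀ (by linarith)] at h3
    exact h3

/-- the zero of the box solution -/
lemma box_zero {F : ℝ → ℝ → ℝ} {t0 a b m : ℝ} {w k : ℝ → ℝ} (hs : SolOn F t0 b w k)
    (ht0 : 0 ≤ t0) (ha : t0 < a)
    (hab : a < b) (hm : 0 < m) (hneg : ∀ t ∈ Icc a b, k t ≤ -m) (hpos : ∀ t ∈ Icc t0 a, 0 < w t)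
    (hz : w b < 0) : ∃ T ∈ Ioo a b, w T = 0 ∧ (∀ t ∈ Ico t0 T, 0 < w t) ∧
      (∀ t ∈ Ioc T b, w t < 0) := by
  have ha0 : 0 < a := ht0.trans_lt ha
  have hc : ContinuousOn w (Icc a b) := hs.cv.mono (Icc_subset_Icc_left ha.le)
  have h1 : (0:ℝ) ∈ w '' (Ioo a b) := by
    apply intermediate_value_Ioo' hab.le hc
    exact ⟨hz, hpos a ⟨ha.le, le_rfl⟩⟩
  obtain ⟨T, hT, hT0⟩ := h1
  refine ⟨T, hT, hT0, ?_, ?_⟩
  · intro t ht
    rcases le_or_gt t a with h | h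
    · exact hpos t ⟨ht.1, h⟩
    · have h2 := slope hs ha.le hneg (s := t) (t := T) ⟨h.le, (ht.2.trans hT.2).le⟩
        ⟨hT.1.le, hT.2.le⟩ ht.2.le
      rw [hT0] at h2
      have h3 : 0 < t * w t := by
        have : 0 < m * (T - t) := mul_pos hm (by linarith [ht.2])
        linarith
      exact (pos_iff_pos_of_mul_pos h3).1 (ha0.trans h)
  · intro t ht
    have h2 := slope hs ha.le hneg (s := T) (t := t) ⟨hT.1.le, hT.2.le⟩
      ⟨(hT.1.trans ht.1).le, ht.2⟩ ht.1.le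
    rw [hT0] at h2
    have h3 : t * w t < 0 := by
      have : 0 < m * (t - T) := mul_pos hm (by linarith [ht.1])
      linarith
    exact (pos_iff_neg_of_mul_neg h3).1 (ha0.trans (hT.1.trans ht.1))

/-- a real function `f` on `[lo,hi]` which is continuous and satisfies
`f y < max (f x) (f z)` for `x<y<z` first decreases and then increases -/
lemma quasi {f : ℝ → ℝ} {lo hi : ℝ} (hle : lo ≤ hi) (hc : ContinuousOn f (Icc lo hi))
    (hq : ∀ x ∈ Icc lo hi, ∀ y ∈ Icc lo hi, ∀ z ∈ Icc lo hi, x < y → y < z →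
      f y < max (f x) (f z)) :
    ∃ β ∈ Icc lo hi, StrictAntiOn f (Icc lo β) ∧ StrictMonoOn f (Icc β hi) := by
  obtain ⟨β, hβ, hmin⟩ := isCompact_Icc.exists_isMinOn (nonempty_Icc.2 hle) hc
  have hmin' : ∀ x ∈ Icc lo hi, f β ≤ f x := fun x hx => hmin hx
  refine ⟨β, hβ, ?_, ?_⟩
  · intro x hx y hy hxy
    have hx' : x ∈ Icc lo hi := ⟨hx.1, hx.2.trans hβ.2⟩
    have hy' : y ∈ Icc lo hi := ⟨hy.1, hy.2.trans hβ.2⟩
    rcases eq_or_lt_of_le hy.2 with h | h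
    · rw [h]
      rw [h] at hxy
      rcases eq_or_lt_of_le (hmin' x hx') with h1 | h1
      · exfalso
        have hz' : (x + β) / 2 ∈ Icc lo hi := ⟨by linarith [hx.1], by linarith [hβ.2]⟩
        have h2 := hq x hx' _ hz' β hβ (by linarith) (by linarith)
        rw [← h1, max_self] at h2
        exact absurd (hmin' _ hz') (not_le.2 h2)
      · exact h1
    · have h2 := hq x hx' y hy' β hβ hxy h
      rcases lt_max_iff.1 h2 with h3 | h3
      · exact h3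
      · exact absurd (hmin' y hy') (not_le.2 h3)
  · intro x hx y hy hxy
    have hx' : x ∈ Icc lo hi := ⟨hβ.1.trans hx.1, hx.2⟩
    have hy' : y ∈ Icc lo hi := ⟨hβ.1.trans hy.1, hy.2⟩
    rcases eq_or_lt_of_le hx.1 with h | h
    · rw [← h]
      rw [← h] at hxy
      rcases eq_or_lt_of_le (hmin' y hy') with h1 | h1
      · exfalso
        have hz' : (β + y) / 2 ∈ Icc lo hi := ⟨by linarith [hβ.1], by linarith [hy.2]⟩
        have h2 := hq β hβ _ hz' y hy' (by linarith) (by linarith)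
        rw [← h1, max_self] at h2
        exact absurd (hmin' _ hz') (not_le.2 h2)
      · exact h1
    · have h2 := hq β hβ x hx' y hy' h hxy
      rcases lt_max_iff.1 h2 with h3 | h3
      · exact absurd (hmin' x hx') (not_le.2 h3)
      · exact h3

theorem p10_regular : P10_regular := by
  intro V Q α0 r a b m M1 ω κ hF hTC hr hα hB
  -- the zero time
  have hsol : ∀ δ ∈ Icc (-1/2 : ℝ) (1/2),
      SolOn (fun _ v => v ^ 4 + v ^ 7) 0 b (ω δ) (κ δ) := by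
    intro δ hδ
    refine SolOn.mono' (hB.sol δ hδ) le_rfl ?_
    intro t _
    ring
  have hzero : ∀ δ ∈ Icc (-1/2 : ℝ) (1/2), ∃ T ∈ Ioo a b, ω δ T = 0 ∧
      (∀ t ∈ Ico 0 T, 0 < ω δ t) ∧ (∀ t ∈ Ioc T b, ω δ t < 0) := by
    intro δ hδ
    exact box_zero (hB.sol δ hδ) le_rfl hB.ha hB.hab hB.hm (hB.neg δ hδ) (hB.pos δ hδ)
      (hB.zer δ hδ)
  choose! Tf hTf using hzero
  have hpar : ∀ x ∈ Icc (α0 - r / 2) (α0 + r / 2), (x - α0) / r ∈ Icc (-1/2 : ℝ) (1/2) := by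
    intro x hx
    refine ⟨?_, ?_⟩
    · rw [le_div_iff₀ hr]; linarith [hx.1]
    · rw [div_le_iff₀ hr]; linarith [hx.2]
  have hpar' : ∀ x : ℝ, α0 + r * ((x - α0) / r) = x := by
    intro x; field_simp; ring
  have hisT : ∀ x ∈ Icc (α0 - r / 2) (α0 + r / 2), IsT V x (Tf ((x - α0) / r)) := by
    intro x hx
    have hδ := hpar x hx
    obtain ⟨h1, h2, h3, h4⟩ := hTf _ hδ
    have h5 : SolOn (fun _ v => v ^ 4 + v ^ 7) 0 (Tf ((x - α0) / r)) (ω ((x - α0) / r))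
        (κ ((x - α0) / r)) := SolOn.mono' (hsol _ hδ) h1.2.le (fun _ _ => rfl)
    refine isT_of_sol hF (by linarith [hx.1]) (hB.ha.trans h1.1) h5 ?_ h3 h2
    rw [hB.iv _ hδ, hpar']
  have hT' : ∀ x ∈ Icc (α0 - r / 2) (α0 + r / 2), ∀ T, IsT V x T → T = Tf ((x - α0) / r) :=
    fun x hx T hT => isT_unique hT (hisT x hx)
  have hmono : ∀ x y : ℝ, x < y → (x - α0) / r < (y - α0) / r := by
    intro x y hxy
    exact div_lt_div_of_pos_right (by linarith) hr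
  refine ⟨fun x hx => ⟨_, hisT x hx⟩, ?_, ?_, ?_⟩
  · intro hanti x hx y hy hxy Tx Ty hTx hTy
    rw [hT' x hx Tx hTx, hT' y hy Ty hTy]
    obtain ⟨h1, h2, h3, h4⟩ := hTf _ (hpar x hx)
    obtain ⟨g1, g2, g3, g4⟩ := hTf _ (hpar y hy)
    have h5 := hanti _ ⟨h1.1.le, h1.2.le⟩ (hpar x hx) (hpar y hy) (hmono x y hxy)
    simp only at h5
    rw [h2] at h5
    by_contra hcon
    rw [not_lt] at hcon
    rcases eq_or_lt_of_le hcon with h6 | h6
    · rw [h6, g2] at h5; exact lt_irrefl _ h5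
    · have := g3 _ ⟨(hB.ha.trans h1.1).le, h6⟩
      linarith
  · intro hmn x hx y hy hxy Tx Ty hTx hTy
    rw [hT' x hx Tx hTx, hT' y hy Ty hTy]
    obtain ⟨h1, h2, h3, h4⟩ := hTf _ (hpar x hx)
    obtain ⟨g1, g2, g3, g4⟩ := hTf _ (hpar y hy)
    have h5 := hmn _ ⟨g1.1.le, g1.2.le⟩ (hpar x hx) (hpar y hy) (hmono x y hxy)
    simp only at h5
    rw [g2] at h5
    by_contra hcon
    rw [not_lt] at hcon
    rcases eq_or_lt_of_le hcon with h6 | h6
    · rw [h6, h2] at h5; exact lt_irrefl _ h5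
    · have := h3 _ ⟨(hB.ha.trans g1.1).le, h6⟩
      linarith
  · intro hconv
    have hcont : ContinuousOn (fun x => Tf ((x - α0) / r)) (Icc (α0 - r / 2) (α0 + r / 2)) := by
      intro x hx
      rw [Metric.continuousWithinAt_iff]
      intro ε hε
      obtain ⟨δ, hδ, h⟩ := hTC x (by linarith [hx.1]) _ (hisT x hx) ε hε
      refine ⟨δ, hδ, ?_⟩
      intro y hy hxy
      rw [Real.dist_eq] at hxy
      obtain ⟨-, Ty, hTy, hd⟩ := h y hxy
      rw [Real.dist_eq, ← hT' y hy Ty hTy]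
      exact hd
    have hq : ∀ x ∈ Icc (α0 - r / 2) (α0 + r / 2), ∀ y ∈ Icc (α0 - r / 2) (α0 + r / 2),
        ∀ z ∈ Icc (α0 - r / 2) (α0 + r / 2), x < y → y < z →
        Tf ((y - α0) / r) < max (Tf ((x - α0) / r)) (Tf ((z - α0) / r)) := by
      intro x hx y hy z hz hxy hyz
      by_contra hcon
      rw [not_lt, max_le_iff] at hcon
      obtain ⟨h1, h2, h3, h4⟩ := hTf _ (hpar x hx)
      obtain ⟨g1, g2, g3, g4⟩ := hTf _ (hpar y hy)
      obtain ⟨k1, k2, k3, k4⟩ := hTf _ (hpar z hz)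
      have hX : ω ((x - α0) / r) (Tf ((y - α0) / r)) ≤ 0 := by
        rcases eq_or_lt_of_le hcon.1 with h6 | h6
        · rw [← h6, h2]
        · exact (h4 _ ⟨h6, g1.2.le⟩).le
      have hZ : ω ((z - α0) / r) (Tf ((y - α0) / r)) ≤ 0 := by
        rcases eq_or_lt_of_le hcon.2 with h6 | h6
        · rw [← h6, k2]
        · exact (k4 _ ⟨h6, g1.2.le⟩).le
      have hcv := (hconv _ ⟨g1.1.le, g1.2.le⟩).2
      have hw1 : 0 < (z - y) / (z - x) := div_pos (by linarith) (by linarith)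
      have hw2 : 0 < (y - x) / (z - x) := div_pos (by linarith) (by linarith)
      have hw3 : (z - y) / (z - x) + (y - x) / (z - x) = 1 := by
        rw [← add_div, div_eq_one_iff_eq (by linarith)]; ring
      have hsc := hcv (hpar x hx) (hpar z hz) (hmono x z (hxy.trans hyz)).ne hw1 hw2 hw3
      have hpt : ((z - y) / (z - x)) • ((x - α0) / r) + ((y - x) / (z - x)) • ((z - α0) / r)
          = (y - α0) / r := by
        have : z - x ≠ 0 := by linarith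
        simp only [smul_eq_mul]
        field_simp
        ring
      simp only at hsc
      rw [hpt, g2] at hsc
      simp only [smul_eq_mul] at hsc
      have e1 : (z - y) / (z - x) * ω ((x - α0) / r) (Tf ((y - α0) / r)) ≤ 0 :=
        mul_nonpos_of_nonneg_of_nonpos (div_nonneg (by linarith) (by linarith)) hX
      have e2 : (y - x) / (z - x) * ω ((z - α0) / r) (Tf ((y - α0) / r)) ≤ 0 :=
        mul_nonpos_of_nonneg_of_nonpos (div_nonneg (by linarith) (by linarith)) hZ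
      linarith
    obtain ⟨β, hβ, hA, hM⟩ := quasi (by linarith) hcont hq
    refine ⟨β, hβ, ?_, ?_⟩
    · intro x hx y hy hxy Tx Ty hTx hTy
      have hx' : x ∈ Icc (α0 - r / 2) (α0 + r / 2) := ⟨hx.1, hx.2.trans hβ.2⟩
      have hy' : y ∈ Icc (α0 - r / 2) (α0 + r / 2) := ⟨hy.1, hy.2.trans hβ.2⟩
      rw [hT' x hx' Tx hTx, hT' y hy' Ty hTy]
      exact hA hx hy hxy
    · intro x hx y hy hxy Tx Ty hTx hTy
      have hx' : x ∈ Icc (α0 - r / 2) (α0 + r / 2) := ⟨hβ.1.trans hx.1, hx.2⟩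
      have hy' : y ∈ Icc (α0 - r / 2) (α0 + r / 2) := ⟨hβ.1.trans hy.1, hy.2⟩
      rw [hT' x hx' Tx hTx, hT' y hy' Ty hTy]
      exact hM hx hy hxy

/-- scaling: `v(t) = α w(c t)`, `c = √(α³)`, `β = α³` -/
lemma scale {α c T : ℝ} (hα : 0 < α) (hc : 0 < c) (hc2 : c ^ 2 = α ^ 3) {w k : ℝ → ℝ}
    (h : SolOn (fun _ v => v ^ 4 + α ^ 3 * v ^ 7) 0 T w k) :
    SolOn (fun _ v => v ^ 4 + v ^ 7) 0 (T / c) (fun t => α * w (c * t))
      (fun t => α * k (c * t)) := by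
  have hmem : ∀ t ∈ Icc 0 (T / c), c * t ∈ Icc 0 T := by
    intro t ht
    refine ⟨mul_nonneg hc.le ht.1, ?_⟩
    have := (le_div_iff₀ hc).1 ht.2
    linarith
  have hmem' : ∀ t ∈ Ioo 0 (T / c), c * t ∈ Ioo 0 T := by
    intro t ht
    refine ⟨mul_pos hc ht.1, ?_⟩
    have := (lt_div_iff₀ hc).1 ht.2
    linarith
  have hcomp : ContinuousOn (fun t : ℝ => c * t) (Icc 0 (T / c)) := by fun_prop
  refine ⟨?_, ?_, ?_, ?_⟩
  · exact continuousOn_const.mul (h.cv.comp hcomp hmem)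
  · exact continuousOn_const.mul (h.cq.comp hcomp hmem)
  · intro t ht
    have h1 := h.dv (c * t) (hmem' t ht)
    have h2 : HasDerivAt (fun t : ℝ => c * t) c t := by
      simpa using (hasDerivAt_id t).const_mul c
    have h3 := h1.comp t h2
    have h4 := h3.const_mul (α / c)
    have h5 : (fun y => α / c * ((fun s : ℝ => s • w s) ∘ fun t => c * t) y)
        = fun s : ℝ => s • (α * w (c * s)) := by
      funext y
      simp only [Function.comp, smul_eq_mul]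
      field_simp
    rw [h5] at h4
    have h6 : α / c * (k (c * t) * c) = α * k (c * t) := by field_simp
    rw [h6] at h4
    exact h4
  · intro t ht
    have h1 := h.dq (c * t) (hmem' t ht)
    have h2 : HasDerivAt (fun t : ℝ => c * t) c t := by
      simpa using (hasDerivAt_id t).const_mul c
    have h3 := (h1.comp t h2).const_mul α
    have h6 : α * (-((c * t) • (w (c * t) ^ 4 + α ^ 3 * w (c * t) ^ 7)) * c)
        = -(t • ((α * w (c * t)) ^ 4 + (α * w (c * t)) ^ 7)) := by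
      simp only [smul_eq_mul]
      have : α * (-(c * t * (w (c * t) ^ 4 + α ^ 3 * w (c * t) ^ 7)) * c)
        = -(c ^ 2 * (t * (α * (w (c * t) ^ 4 + α ^ 3 * w (c * t) ^ 7)))) := by ring
      rw [this, hc2]
      ring
    rw [h6] at h3
    exact h3

theorem p10_small : P10_small := by
  intro V Q B0 B1 a b m M1 a1 ω κ hF hB1 hB0 ha1 ha1B hB hnum
  have hzero : ∀ δ ∈ Icc (-1/2 : ℝ) (1/2), ∃ T ∈ Ioo a b, ω δ T = 0 ∧
      (∀ t ∈ Ico 0 T, 0 < ω δ t) ∧ (∀ t ∈ Ioc T b, ω δ t < 0) := by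
    intro δ hδ
    exact box_zero (hB.sol δ hδ) le_rfl hB.ha hB.hab hB.hm (hB.neg δ hδ) (hB.pos δ hδ)
      (hB.zer δ hδ)
  choose! Sf hSf using hzero
  have ha : 0 < a := hB.ha
  -- parameter
  have hmon : ∀ x ∈ Ioc 0 a1, x ^ 3 ≤ B0 + B1 / 2 := by
    intro x hx
    exact (pow_le_pow_left₀ hx.1.le hx.2 3).trans ha1B
  have hpar : ∀ x ∈ Ioc 0 a1, (x ^ 3 - B0) / B1 ∈ Icc (-1/2 : ℝ) (1/2) := by
    intro x hx
    have := hmon x hx
    have h3 : 0 < x ^ 3 := pow_pos hx.1 3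
    refine ⟨?_, ?_⟩
    · rw [le_div_iff₀ hB1]; linarith
    · rw [div_le_iff₀ hB1]; linarith
  have hpar' : ∀ x : ℝ, B0 + B1 * ((x ^ 3 - B0) / B1) = x ^ 3 := by
    intro x; field_simp; ring
  have hisT : ∀ x ∈ Ioc 0 a1, IsT V x (Sf ((x ^ 3 - B0) / B1) / √(x ^ 3)) := by
    intro x hx
    have hδ := hpar x hx
    obtain ⟨h1, h2, h3, h4⟩ := hSf _ hδ
    have hx3 : 0 < x ^ 3 := pow_pos hx.1 3
    have hc : 0 < √(x ^ 3) := Real.sqrt_pos.2 hx3
    have h5 : SolOn (fun _ v => v ^ 4 + x ^ 3 * v ^ 7) 0 (Sf ((x ^ 3 - B0) / B1))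
        (ω ((x ^ 3 - B0) / B1)) (κ ((x ^ 3 - B0) / B1)) := by
      refine SolOn.mono' (hB.sol _ hδ) h1.2.le ?_
      intro t _
      rw [hpar']
    have h6 := scale hx.1 hc (Real.sq_sqrt hx3.le) h5
    refine isT_of_sol hF hx.1 (div_pos (ha.trans h1.1) hc) h6 ?_ ?_ ?_
    · simp only [mul_zero]
      rw [hB.iv _ hδ]; ring
    · intro t ht
      refine mul_pos hx.1 (h3 _ ⟨mul_nonneg hc.le ht.1, ?_⟩)
      have := (lt_div_iff₀ hc).1 ht.2
      linarith
    · rw [mul_div_cancel₀ _ hc.ne', h2, mul_zero]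
  refine ⟨fun x hx => ⟨_, hisT x hx⟩, ?_⟩
  intro x hx y hy hxy Tx Ty hTx hTy
  rw [isT_unique hTx (hisT x hx), isT_unique hTy (hisT y hy)]
  have hx3 : 0 < x ^ 3 := pow_pos hx.1 3
  have hy3 : 0 < y ^ 3 := pow_pos hy.1 3
  have hcx : 0 < √(x ^ 3) := Real.sqrt_pos.2 hx3
  have hcy : 0 < √(y ^ 3) := Real.sqrt_pos.2 hy3
  have hxy3 : x ^ 3 < y ^ 3 := pow_lt_pow_left₀ hxy hx.1.le (by norm_num)
  obtain ⟨h1, h2, h3, h4⟩ := hSf _ (hpar x hx)
  obtain ⟨g1, g2, g3, g4⟩ := hSf _ (hpar y hy)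
  set S := Sf ((x ^ 3 - B0) / B1) with hS
  set S' := Sf ((y ^ 3 - B0) / B1) with hS'
  have hSpos : 0 < S := ha.trans h1.1
  have hS'pos : 0 < S' := ha.trans g1.1
  have hcc : √(x ^ 3) < √(y ^ 3) := Real.sqrt_lt_sqrt hx3.le hxy3
  rcases le_or_gt S' S with hle | hlt
  · calc S' / √(y ^ 3) ≤ S / √(y ^ 3) := div_le_div_of_nonneg_right hle hcy.le
      _ < S / √(x ^ 3) := div_lt_div_of_pos_left hSpos hcx hcc
  · -- `S < S'`
    have hsl := slope (hB.sol _ (hpar x hx)) hB.ha.le (hB.neg _ (hpar x hx)) (s := S) (t := S')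
      ⟨h1.1.le, h1.2.le⟩ ⟨g1.1.le, g1.2.le⟩ hlt.le
    rw [h2, mul_zero, sub_zero] at hsl
    have hli := hB.lip _ (hpar x hx) _ (hpar y hy) S' ⟨g1.1.le, g1.2.le⟩
    rw [g2, sub_zero] at hli
    have hdel : |(x ^ 3 - B0) / B1 - (y ^ 3 - B0) / B1| = (y ^ 3 - x ^ 3) / B1 := by
      rw [← sub_div, abs_of_nonpos (div_nonpos_of_nonpos_of_nonneg (by linarith) hB1.le)]
      ring
    rw [hdel] at hli
    have hD : 0 < (y ^ 3 - x ^ 3) / B1 := div_pos (by linarith) hB1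
    have hm := hB.hm
    -- m (S' - S) ≤ S' * M1 * D
    have e1 : m * (S' - S) ≤ S' * (M1 * ((y ^ 3 - x ^ 3) / B1)) := by
      have := neg_abs_le (ω ((x ^ 3 - B0) / B1) S')
      have h7 : S' * -(M1 * ((y ^ 3 - x ^ 3) / B1)) ≤ S' * ω ((x ^ 3 - B0) / B1) S' :=
        mul_le_mul_of_nonneg_left (by linarith) hS'pos.le
      linarith
    have hM1 : 0 ≤ M1 := by
      have h8 : 0 ≤ M1 * ((y ^ 3 - x ^ 3) / B1) := (abs_nonneg _).trans hli
      exact nonneg_of_mul_nonneg_left h8 hD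
    -- logarithms
    have e2 : Real.log (S' / S) ≤ (b / a) * (M1 / m) * ((y ^ 3 - x ^ 3) / B1) := by
      have h9 : Real.log (S' / S) ≤ S' / S - 1 := Real.log_le_sub_one_of_pos (div_pos hS'pos hSpos)
      have h10 : S' / S - 1 = (S' - S) / S := by field_simp
      have h11 : (S' - S) / S ≤ (S' * (M1 / m * ((y ^ 3 - x ^ 3) / B1))) / S := by
        apply div_le_div_of_nonneg_right _ hSpos.le
        have : S' - S ≤ (S' * (M1 * ((y ^ 3 - x ^ 3) / B1))) / m := by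
          rw [le_div_iff₀ hm]; linarith
        calc S' - S ≤ (S' * (M1 * ((y ^ 3 - x ^ 3) / B1))) / m := this
          _ = _ := by ring
      have h12 : (S' * (M1 / m * ((y ^ 3 - x ^ 3) / B1))) / S
          = (S' / S) * (M1 / m * ((y ^ 3 - x ^ 3) / B1)) := by ring
      have h13 : S' / S ≤ b / a := by
        rw [div_le_div_iff₀ hSpos ha]
        nlinarith [h1.1, g1.2, hSpos, ha, hS'pos]
      have h14 : 0 ≤ M1 / m * ((y ^ 3 - x ^ 3) / B1) :=
        mul_nonneg (div_nonneg hM1 hm.le) hD.le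
      calc Real.log (S' / S) ≤ (S' - S) / S := by rw [← h10]; exact h9
        _ ≤ (S' / S) * (M1 / m * ((y ^ 3 - x ^ 3) / B1)) := by rw [← h12]; exact h11
        _ ≤ (b / a) * (M1 / m * ((y ^ 3 - x ^ 3) / B1)) := mul_le_mul_of_nonneg_right h13 h14
        _ = _ := by ring
    have hBp : 0 < B0 + B1 / 2 := hx3.trans_le (hmon x hx)
    have e3 : B1 / (2 * (B0 + B1 / 2)) * ((y ^ 3 - x ^ 3) / B1)
        ≤ 1 / 2 * Real.log (y ^ 3 / x ^ 3) := by
      have h9 : 1 - (y ^ 3 / x ^ 3)⁻¹ ≤ Real.log (y ^ 3 / x ^ 3) :=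
        Real.one_sub_inv_le_log_of_pos (div_pos hy3 hx3)
      have h10 : 1 - (y ^ 3 / x ^ 3)⁻¹ = (y ^ 3 - x ^ 3) / y ^ 3 := by
        rw [inv_div, sub_div, div_self hy3.ne']
      have h11 : (y ^ 3 - x ^ 3) / (B0 + B1 / 2) ≤ (y ^ 3 - x ^ 3) / y ^ 3 :=
        div_le_div_of_nonneg_left (by linarith) hy3 (hmon y hy)
      have h12 : B1 / (2 * (B0 + B1 / 2)) * ((y ^ 3 - x ^ 3) / B1)
          = 1 / 2 * ((y ^ 3 - x ^ 3) / (B0 + B1 / 2)) := by
        have : B0 + B1 / 2 ≠ 0 := hBp.ne'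
        field_simp
      rw [h12]
      have := h11.trans (h10 ▸ h9)
      linarith
    have e4 : Real.log (S' / S) < 1 / 2 * Real.log (y ^ 3 / x ^ 3) :=
      e2.trans_lt ((mul_lt_mul_of_pos_right hnum hD).trans_le e3)
    have e5 : 1 / 2 * Real.log (y ^ 3 / x ^ 3) = Real.log (√(y ^ 3) / √(x ^ 3)) := by
      rw [← Real.sqrt_div hy3.le, Real.log_sqrt (div_pos hy3 hx3).le]
      ring
    rw [e5] at e4
    have e6 := (Real.log_lt_log_iff (div_pos hS'pos hSpos) (div_pos hcy hcx)).1 e4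
    rw [div_lt_div_iff₀ hSpos hcx] at e6
    rw [div_lt_div_iff₀ hcy hcx]
    linarith

end Pool.Agent.W2helper40.LN
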